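import Pool.Agent.V7H59.DN.Spec

/-! D-neofields from sequences. -/

set_option autoImplicit false

namespace Pool.Agent.V7H33.DN

open Pool.Agent.Results.MP_845d9b_co.SevenModEight (DNeofieldOrder mk isD card_option)
open Pool.Agent.V7H59.DN

section

variable (m : ℕ) [NeZero m] (c : ℕ → ℤ) (u v : ℤ)

/-- the index `i` of the exponent `k`, so that `k = i + (v - u)` -/
def idx (k : ZMod m) : ℕ := (k - ((v - u : ℤ) : ZMod m)).val

/-- the map `y ↦ 1 + y` -/
def T : Option (ZMod m) → Option (ZMod m)
  | none => some 0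
  | some k => if idx m u v k + 1 = m then none else some ((c (idx m u v k) - u : ℤ) : ZMod m)

theorem idx_lt (k : ZMod m) : idx m u v k < m := ZMod.val_lt _

theorem idx_spec (k : ZMod m) :
    k = ((idx m u v k : ℕ) : ZMod m) + ((v - u : ℤ) : ZMod m) := by
  rw [idx, ZMod.natCast_zmod_val]; ring

theorem idx_inj (k l : ZMod m) (h : idx m u v k = idx m u v l) : k = l := by
  rw [idx_spec m u v k, idx_spec m u v l, h]

theorem idx_succ (k : ZMod m) (h : idx m u v k + 1 ≠ m) :
    idx m u v (k + 1) = idx m u v k + 1 := by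
  have h1 := idx_lt m u v k
  have h2 : (k + 1 - ((v - u : ℤ) : ZMod m)) = ((idx m u v k + 1 : ℕ) : ZMod m) := by
    have := idx_spec m u v k
    push_cast at this ⊢
    linear_combination this
  rw [idx, h2, ZMod.val_natCast, Nat.mod_eq_of_lt (by omega)]

theorem T_some (k w : ZMod m) (h : T m c u v (some k) = some w) :
    idx m u v k + 1 < m ∧ w = ((c (idx m u v k) - u : ℤ) : ZMod m) := by
  have h1 := idx_lt m u v k
  simp only [T] at h
  split_ifs at h with h2
  exact ⟨by omega, (Option.some.inj h).symm⟩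

theorem T_none (k : ZMod m) (h : T m c u v (some k) = none) : idx m u v k + 1 = m := by
  simp only [T] at h
  split_ifs at h with h2
  exact h2

theorem T_injective
    (hc : ∀ i k : ℕ, i + 1 < m → k + 1 < m → (m : ℤ) ∣ c i - c k → i = k)
    (hu : ∀ i : ℕ, i + 1 < m → ¬ (m : ℤ) ∣ c i - u) : Function.Injective (T m c u v) := by
  intro y z h
  cases y with
  | none => cases z with
    | none => rfl
    | some k =>
      exfalso
      obtain ⟨h1, h2⟩ := T_some m c u v k 0 h.symm
      have h3 := (ZMod.intCast_zmod_eq_zero_iff_dvd _ _).1 h2.symm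
      exact hu _ h1 h3
  | some k => cases z with
    | none =>
      exfalso
      obtain ⟨h1, h2⟩ := T_some m c u v k 0 h
      have h3 := (ZMod.intCast_zmod_eq_zero_iff_dvd _ _).1 h2.symm
      exact hu _ h1 h3
    | some l =>
      rcases hk : T m c u v (some k) with _ | w
      · rw [hk] at h
        have a1 := T_none m c u v k hk
        have a2 := T_none m c u v l h.symm
        rw [idx_inj m u v k l (by omega)]
      · rw [hk] at h
        obtain ⟨h1, h2⟩ := T_some m c u v k w hk
        obtain ⟨h3, h4⟩ := T_some m c u v l w h.symm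
        rw [h2, ZMod.intCast_eq_intCast_iff_dvd_sub] at h4
        have h5 := hc (idx m u v l) (idx m u v k) h3 h1 (by
          have e : c (idx m u v l) - u - (c (idx m u v k) - u) =
            c (idx m u v l) - c (idx m u v k) := by ring
          rw [← e]; exact h4)
        rw [idx_inj m u v k l h5.symm]

theorem T_fix (hv : ∀ i : ℕ, i + 1 < m → ¬ (m : ℤ) ∣ (c i - i) - v) (k : ZMod m) :
    T m c u v (some k) ≠ some k := by
  intro h
  obtain ⟨h1, h2⟩ := T_some m c u v k k h
  have h3 := idx_spec m u v k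
  have h4 : ((c (idx m u v k) - (idx m u v k : ℕ) - v : ℤ) : ZMod m) = 0 := by
    push_cast at h2 h3 ⊢
    linear_combination h3 - h2
  exact hv _ h1 ((ZMod.intCast_zmod_eq_zero_iff_dvd _ _).1 h4)

theorem T_R (hb : ∀ i k : ℕ, i + 1 < m → k + 1 < m → (m : ℤ) ∣ (c i - i) - (c k - k) → i = k)
    (k l x w : ZMod m) (hk : T m c u v (some k) = some x)
    (hl : T m c u v (some l) = some w) (h : x - k = w - l) : k = l := by
  obtain ⟨h1, h2⟩ := T_some m c u v k x hk
  obtain ⟨h3, h4⟩ := T_some m c u v l w hl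
  apply idx_inj m u v
  apply hb _ _ h1 h3
  rw [← ZMod.intCast_zmod_eq_zero_iff_dvd]
  have hk' := idx_spec m u v k
  have hl' := idx_spec m u v l
  push_cast at h2 h4 hk' hl' ⊢
  linear_combination h - h2 + h4 + hk' - hl'

theorem T_D (hd : ∀ i k : ℕ, i + 2 < m → k + 2 < m →
      (m : ℤ) ∣ (c (i + 1) - c i) - (c (k + 1) - c k) → i = k)
    (t s x x' w w' : ZMod m) (h1 : T m c u v (some t) = some x)
    (h2 : T m c u v (some (t + 1)) = some x') (h3 : T m c u v (some s) = some w)
    (h4 : T m c u v (some (s + 1)) = some w') (h : x' - x = w' - w) : t = s := by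
  obtain ⟨a1, a2⟩ := T_some m c u v _ _ h1
  obtain ⟨b1, b2⟩ := T_some m c u v _ _ h2
  obtain ⟨c1, c2⟩ := T_some m c u v _ _ h3
  obtain ⟨d1, d2⟩ := T_some m c u v _ _ h4
  rw [idx_succ m u v t (by omega)] at b1 b2
  rw [idx_succ m u v s (by omega)] at d1 d2
  apply idx_inj m u v
  apply hd _ _ (by omega) (by omega)
  rw [← ZMod.intCast_zmod_eq_zero_iff_dvd]
  push_cast at a2 b2 c2 d2 ⊢
  linear_combination h - b2 + a2 + d2 - c2

end

theorem t_OFSEQ : S_OFSEQ := by
  intro m hm c u v hc hb hd hu hv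
  haveI : NeZero m := ⟨by omega⟩
  exact ⟨Option (ZMod m), mk (T m c u v) rfl (T_injective m c u v hc hu) (T_fix m c u v hv)
      (T_R m c u v hb), card_option m, some 1,
    isD (T m c u v) rfl (T_injective m c u v hc hu) (T_fix m c u v hv) (T_R m c u v hb)
      (T_D m c u v hd)⟩

end Pool.Agent.V7H33.DN
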